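import Mathlib

/-!
# `KS_n` manifolds with positive definite metric which are not locally symmetric

A Riemannian manifold is a `KS_n` manifold of order `r` if `∇^r R` is a combination
`-∑ t^(m) ⊗ ∇^(r-m) R` with covariant tensor fields `t^(m)`, `1 ≤ m ≤ r`. We show that the complete
metric `dx₀² + exp (2 x₀²) dx₁² + dx₂² + ... + dx_(n-1)²` on `ℝⁿ`, `n ≥ 2`, has this property for
every `r ≥ 1` (indeed `∇^r R = ρ_r ⊗ R`), although it is not locally symmetric. It is the product of
a complete surface of nonconstant negative curvature and a flat space.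
-/

set_option autoImplicit false

open scoped ContDiff

namespace Pool.Agent.Results.MP_9d59e9_gt.RecurrentMetrics

/-- `ℝⁿ`. -/
abbrev E (n : ℕ) : Type := EuclideanSpace ℝ (Fin n)

/-- The partial derivative `∂F/∂xⁱ` at `x`. -/
noncomputable def pd {n : ℕ} (i : Fin n) (F : E n → ℝ) (x : E n) : ℝ :=
  fderiv ℝ F x (EuclideanSpace.single i 1)

/-- `g` is a smooth Riemannian (positive definite) metric on `ℝⁿ`. -/
structure IsRiemannianMetric {n : ℕ} (g : E n → Matrix (Fin n) (Fin n) ℝ) : Prop where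
  smooth : ∀ i j, ContDiff ℝ ∞ fun x => g x i j
  posDef : ∀ x, (g x).PosDef

/-- The Christoffel symbols `Γᵏᵢⱼ` of the metric `g`. -/
noncomputable def chr {n : ℕ} (g : E n → Matrix (Fin n) (Fin n) ℝ) (x : E n) (k i j : Fin n) : ℝ :=
  (1 / 2) * ∑ l, (g x)⁻¹ k l *
    (pd i (fun y => g y j l) x + pd j (fun y => g y i l) x - pd l (fun y => g y i j) x)

/-- Tensor fields of type `(1,k)` on `ℝⁿ`, given by their components `T^α_{β 0 ... β (k-1)}`. -/
abbrev Tensor (n k : ℕ) : Type := E n → Fin n → (Fin k → Fin n) → ℝ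

/-- The covariant derivative `∇_{β 0} T^α_{β 1 ... β k}` (Levi-Civita connection) of a tensor field
of type `(1,k)`. -/
noncomputable def covD {n k : ℕ} (g : E n → Matrix (Fin n) (Fin n) ℝ) (T : Tensor n k) :
    Tensor n (k + 1) := fun x α β =>
  pd (β 0) (fun y => T y α (Fin.tail β)) x + ∑ σ, chr g x α (β 0) σ * T x σ (Fin.tail β) -
    ∑ j : Fin k, ∑ σ, chr g x σ (β 0) (Fin.tail β j) * T x α (Function.update (Fin.tail β) j σ)

/-- The curvature tensor `R^α_{β μ ν}`, where `β, μ, ν` are `b 0, b 1, b 2`: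
`R(∂_μ, ∂_ν) ∂_β = R^α_{β μ ν} ∂_α` and `R(X,Y)Z = ∇_X ∇_Y Z - ∇_Y ∇_X Z - ∇_[X,Y] Z`. -/
noncomputable def curv {n : ℕ} (g : E n → Matrix (Fin n) (Fin n) ℝ) : Tensor n 3 := fun x α b =>
  pd (b 1) (fun y => chr g y α (b 2) (b 0)) x - pd (b 2) (fun y => chr g y α (b 1) (b 0)) x +
    ∑ σ, (chr g x α (b 1) σ * chr g x σ (b 2) (b 0) - chr g x α (b 2) σ * chr g x σ (b 1) (b 0))

/-- `∇^k R`, with components `∇_{λ 1} ... ∇_{λ k} R^α_{β μ ν}`. -/
noncomputable def nablaR {n : ℕ} (g : E n → Matrix (Fin n) (Fin n) ℝ) : (k : ℕ) → Tensor n (k + 3)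
  | 0 => curv g
  | k + 1 => covD g (nablaR g k)

/-- `(ℝⁿ, g)` is a `KS_n` manifold of order `r`: there are smooth covariant tensor fields `t m` of
rank `m`, `1 ≤ m ≤ r`, such that
`∇_{λ 1} ... ∇_{λ r} R^α_{β μ ν} + ∑_{m=1}^r t_{λ 1 ... λ m} ∇_{λ (m+1)} ... ∇_{λ r} R^α_{β μ ν} = 0`.
(The indices `λ 1, ..., λ r, β, μ, ν` are the values of `b`.) -/
def IsKS {n : ℕ} (g : E n → Matrix (Fin n) (Fin n) ℝ) (r : ℕ) : Prop :=
  ∃ t : (m : ℕ) → (Fin m → Fin n) → E n → ℝ, (∀ m lam, ContDiff ℝ ∞ (t m lam)) ∧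
    ∀ (x : E n) (α : Fin n) (b : Fin (r + 3) → Fin n),
      nablaR g r x α b + ∑ m : Fin r, t (m + 1) (fun i : Fin (m + 1) => b ⟨i, by omega⟩) x *
        nablaR g (r - (m + 1)) x α (fun i : Fin (r - (m + 1) + 3) => b ⟨i + (m + 1), by omega⟩) = 0

/-! ### The example -/

section
variable {m : ℕ}

/-- Kronecker delta -/
noncomputable def dl {n : ℕ} (i j : Fin n) : ℝ := if i = j then 1 else 0

/-- the square of the warping function -/
noncomputable def ff (x : E (m + 2)) : ℝ := Real.exp (2 * x 0 ^ 2)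

/-- the metric `dx₀² + exp (2 x₀²) dx₁² + dx₂² + ...` -/
noncomputable def met (x : E (m + 2)) : Matrix (Fin (m + 2)) (Fin (m + 2)) ℝ :=
  Matrix.diagonal fun i => if i = 1 then ff x else 1

lemma ff_pos (x : E (m + 2)) : 0 < ff x := Real.exp_pos _

lemma contDiff_coord (i : Fin (m + 2)) : ContDiff ℝ ∞ (fun x : E (m + 2) => x i) :=
  (EuclideanSpace.proj (𝕜 := ℝ) (ι := Fin (m + 2)) i).contDiff

lemma contDiff_ff : ContDiff ℝ ∞ (ff : E (m + 2) → ℝ) :=
  Real.contDiff_exp.comp (contDiff_const.mul ((contDiff_coord 0).pow 2))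

lemma met_isRiem : IsRiemannianMetric (met : E (m + 2) → _) := by
  constructor
  · intro i j
    unfold met
    simp only [Matrix.diagonal_apply]
    split_ifs
    · exact contDiff_ff
    · exact contDiff_const
    · exact contDiff_const
  · intro x
    refine Matrix.PosDef.diagonal fun i => ?_
    split_ifs
    · exact ff_pos x
    · exact one_pos

lemma hasFDeriv_coord (i : Fin (m + 2)) (x : E (m + 2)) :
    HasFDerivAt (fun x : E (m + 2) => x i) (EuclideanSpace.proj (𝕜 := ℝ) (ι := Fin (m + 2)) i) x :=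
  (EuclideanSpace.proj (𝕜 := ℝ) (ι := Fin (m + 2)) i).hasFDerivAt

/-- partial derivatives of functions of the first coordinate -/
lemma pd_comp {φ : ℝ → ℝ} {φ' : ℝ} (i : Fin (m + 2)) (x : E (m + 2)) (h : HasDerivAt φ φ' (x 0)) :
    pd i (fun y => φ (y 0)) x = dl 0 i * φ' := by
  have := (h.comp_hasFDerivAt x (hasFDeriv_coord 0 x)).fderiv
  unfold pd
  have h2 : (fun y : E (m + 2) => φ (y 0)) = φ ∘ fun y : E (m+2) => y 0 := rfl
  rw [h2, this]
  simp [dl, mul_comm]

lemma hasDerivAt_ff (u : ℝ) :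
    HasDerivAt (fun u : ℝ => Real.exp (2 * u ^ 2)) (4 * u * Real.exp (2 * u ^ 2)) u := by
  have := (((hasDerivAt_pow 2 u).const_mul 2).exp)
  refine this.congr_deriv ?_
  simp
  ring

lemma pd_ff (i : Fin (m + 2)) (x : E (m + 2)) :
    pd i (fun y => ff y) x = dl 0 i * (4 * x 0 * ff x) :=
  pd_comp i x (hasDerivAt_ff (x 0))

lemma pd_const (i : Fin (m + 2)) (x : E (m + 2)) (c : ℝ) : pd i (fun _ => c) x = 0 := by
  simp [pd]

lemma pd_met (l i j : Fin (m + 2)) (x : E (m + 2)) :
    pd l (fun y => met y i j) x = dl i j * dl i 1 * dl 0 l * (4 * x 0 * ff x) := by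
  unfold met
  simp only [Matrix.diagonal_apply]
  by_cases h : i = j
  · by_cases h1 : i = 1
    · simp only [h1, if_true]
      by_cases h2 : (1 : Fin (m + 2)) = j
      · simp only [if_pos h2]
        rw [pd_ff]
        simp [dl, h2]
      · exact absurd (h1.symm.trans h) h2
    · simp only [if_pos h, if_neg h1]
      rw [pd_const]
      simp [dl, h1]
  · simp only [if_neg h]
    rw [pd_const]
    simp [dl, h]

lemma met_inv (x : E (m + 2)) :
    (met x)⁻¹ = Matrix.diagonal fun i => if i = 1 then (ff x)⁻¹ else 1 := by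
  refine Matrix.inv_eq_right_inv ?_
  unfold met
  rw [Matrix.diagonal_mul_diagonal, ← Matrix.diagonal_one]
  congr 1
  funext i
  split_ifs
  · exact mul_inv_cancel₀ (ff_pos x).ne'
  · exact one_mul 1

lemma chr_met (x : E (m + 2)) (k i j : Fin (m + 2)) :
    chr met x k i j = 2 * x 0 * (dl k 1 * (dl 0 i * dl j 1 + dl 0 j * dl i 1)) -
      2 * x 0 * ff x * (dl 0 k * dl i 1 * dl j 1) := by
  unfold chr
  simp only [pd_met, met_inv, Matrix.diagonal_apply]
  simp only [ite_mul, zero_mul, Finset.sum_ite_eq, Finset.mem_univ, if_true]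
  have hf := (ff_pos x).ne'
  by_cases hk : k = 1
  · subst hk
    simp only [if_true, dl]
    by_cases hi : i = 1
    · by_cases hj : j = 1
      · subst hi hj
        simp
      · subst hi
        simp [hj, Ne.symm hj]
        split_ifs <;> field_simp <;> ring
    · by_cases hj : j = 1
      · subst hj
        simp [hi]
        split_ifs <;> field_simp <;> ring
      · simp [hi, hj]
  · simp only [if_neg hk, dl]
    by_cases hi : i = 1
    · by_cases hj : j = 1
      · subst hi hj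
        simp [Ne.symm hk]
        split_ifs <;> ring
      · subst hi
        simp [hj, Ne.symm hj, Ne.symm hk]
    · by_cases hj : j = 1
      · subst hj
        simp [hi, Ne.symm hk]
      · simp [hi, hj]

/-- the Gauss curvature of the metric `du² + exp (2 u²) dv²` -/
noncomputable def KK (u : ℝ) : ℝ := -(2 + 4 * u ^ 2)

/-- the tensor `R / K` -/
noncomputable def GG (x : E (m + 2)) (α b μ ν : Fin (m + 2)) : ℝ :=
  (dl 0 μ * dl ν 1 - dl μ 1 * dl 0 ν) * (dl 0 α * dl b 1 * ff x - dl α 1 * dl 0 b)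

lemma pd_lin (c d : ℝ) (i : Fin (m + 2)) (x : E (m + 2)) :
    pd i (fun y => 2 * y 0 * c - 2 * y 0 * ff y * d) x =
      dl 0 i * (2 * c - (2 + 8 * x 0 ^ 2) * ff x * d) := by
  have h : HasDerivAt (fun u : ℝ => 2 * u * c - 2 * u * Real.exp (2 * u ^ 2) * d)
      (2 * c - (2 + 8 * (x 0) ^ 2) * Real.exp (2 * (x 0) ^ 2) * d) (x 0) := by
    have h1 : HasDerivAt (fun u : ℝ => 2 * u) 2 (x 0) := by
      simpa using (hasDerivAt_id (x 0)).const_mul (2 : ℝ)
    have := (h1.mul_const c).sub ((h1.mul (hasDerivAt_ff (x 0))).mul_const d)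
    refine this.congr_deriv ?_
    ring
  exact pd_comp i x h

lemma sum_two (F : Fin (m + 2) → ℝ) (h : ∀ σ, σ ≠ 0 → σ ≠ 1 → F σ = 0) :
    ∑ σ, F σ = F 0 + F 1 := by
  rw [← Finset.sum_pair (f := F) (show (0 : Fin (m + 2)) ≠ 1 by simp)]
  symm
  refine Finset.sum_subset (Finset.subset_univ _) fun σ _ hσ => ?_
  simp only [Finset.mem_insert, Finset.mem_singleton, not_or] at hσ
  exact h σ hσ.1 hσ.2

lemma tri (i : Fin (m + 2)) : (dl 0 i = 1 ∧ dl i 1 = 0) ∨ (dl 0 i = 0 ∧ dl i 1 = 1) ∨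
    (dl 0 i = 0 ∧ dl i 1 = 0) := by
  unfold dl
  by_cases h : i = 0
  · subst h; simp
  · by_cases h1 : i = 1
    · subst h1; simp
    · simp [h1, Ne.symm h]

lemma dl_ne0 {σ : Fin (m + 2)} (h : σ ≠ 0) : dl 0 σ = 0 := by simp [dl, Ne.symm h]
lemma dl_ne1 {σ : Fin (m + 2)} (h : σ ≠ 1) : dl σ 1 = 0 := by simp [dl, h]
lemma dl00 : dl (0 : Fin (m + 2)) 0 = 1 := by simp [dl]
lemma dl01 : dl (0 : Fin (m + 2)) 1 = 0 := by simp [dl]
lemma dl11 : dl (1 : Fin (m + 2)) 1 = 1 := by simp [dl]

lemma curv_met (x : E (m + 2)) (α : Fin (m + 2)) (b : Fin 3 → Fin (m + 2)) :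
    curv met x α b = KK (x 0) * GG x α (b 0) (b 1) (b 2) := by
  unfold curv
  simp only [chr_met, pd_lin]
  generalize b 0 = β
  generalize b 1 = μ
  generalize b 2 = ν
  simp only [KK, GG]
  rw [sum_two]
  · simp only [dl00, dl01, dl11]
    rcases tri α with ⟨h1, h2⟩ | ⟨h1, h2⟩ | ⟨h1, h2⟩ <;>
    rcases tri β with ⟨h3, h4⟩ | ⟨h3, h4⟩ | ⟨h3, h4⟩ <;>
    rcases tri μ with ⟨h5, h6⟩ | ⟨h5, h6⟩ | ⟨h5, h6⟩ <;>
    rcases tri ν with ⟨h7, h8⟩ | ⟨h7, h8⟩ | ⟨h7, h8⟩ <;>
    simp only [h1, h2, h3, h4, h5, h6, h7, h8] <;> ring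
  · intro σ h0 h1
    simp only [dl_ne0 h0, dl_ne1 h1]
    ring

lemma pd_KG (c d : ℝ) (i : Fin (m + 2)) (x : E (m + 2)) :
    pd i (fun y => KK (y 0) * (c * ff y - d)) x =
      dl 0 i * (-(8 * x 0) * (c * ff x - d) + KK (x 0) * (c * (4 * x 0 * ff x))) := by
  have h : HasDerivAt (fun u : ℝ => KK u * (c * Real.exp (2 * u ^ 2) - d))
      (-(8 * x 0) * (c * Real.exp (2 * x 0 ^ 2) - d) +
        KK (x 0) * (c * (4 * x 0 * Real.exp (2 * x 0 ^ 2)))) (x 0) := by
    have h1 : HasDerivAt KK (-(8 * x 0)) (x 0) := by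
      have := (((hasDerivAt_pow 2 (x 0)).const_mul (4 : ℝ)).const_add 2).neg
      refine this.congr_deriv ?_
      simp
      ring
    exact h1.mul (((hasDerivAt_ff (x 0)).const_mul c).sub_const d)
  exact pd_comp i x h

/-- `∇R = (dK / K) ⊗ R` -/
lemma nabla_curv (x : E (m + 2)) (α : Fin (m + 2)) (b : Fin 4 → Fin (m + 2)) :
    covD met (curv met) x α b =
      dl 0 (b 0) * (-(8 * x 0) / KK (x 0)) * curv met x α (Fin.tail b) := by
  have hK : KK (x 0) ≠ 0 := by
    unfold KK
    nlinarith [sq_nonneg (x 0)]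
  unfold covD
  simp only [curv_met, chr_met, Fin.sum_univ_three]
  have t0 : Fin.tail b 0 = b 1 := rfl
  have t1 : Fin.tail b 1 = b 2 := rfl
  have t2 : Fin.tail b 2 = b 3 := rfl
  simp only [Function.update_apply]
  simp only [t0, t1, t2]
  generalize b 0 = l
  generalize b 1 = β
  generalize b 2 = μ
  generalize b 3 = ν
  have e1 : pd l (fun y => KK (y 0) * GG y α β μ ν) x =
      (dl 0 μ * dl ν 1 - dl μ 1 * dl 0 ν) * (dl 0 l * (-(8 * x 0) *
        ((dl 0 α * dl β 1) * ff x - dl α 1 * dl 0 β) +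
        KK (x 0) * ((dl 0 α * dl β 1) * (4 * x 0 * ff x)))) := by
    rw [← pd_KG]
    have h : (fun y : E (m + 2) => KK (y 0) * GG y α β μ ν) =
        fun y => (dl 0 μ * dl ν 1 - dl μ 1 * dl 0 ν) *
          (KK (y 0) * ((dl 0 α * dl β 1) * ff y - dl α 1 * dl 0 β)) := by
      funext y
      unfold GG
      ring
    rw [h]
    unfold pd
    rw [fderiv_const_mul]
    · simp
    · have h1 : ContDiff ℝ ∞ (fun y : E (m + 2) => KK (y 0) *
          ((dl 0 α * dl β 1) * ff y - dl α 1 * dl 0 β)) := by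
        unfold KK
        exact (contDiff_const.add (contDiff_const.mul ((contDiff_coord 0).pow 2))).neg.mul
          ((contDiff_const.mul contDiff_ff).sub contDiff_const)
      exact (h1.differentiable (by simp)).differentiableAt
  rw [e1]
  have s0 : ∀ (T : Fin (m + 2) → ℝ) (i : Fin (m + 2)),
      ∑ σ, (2 * x 0 * (dl σ 1 * (dl 0 l * dl i 1 + dl 0 i * dl l 1)) -
        2 * x 0 * ff x * (dl 0 σ * dl l 1 * dl i 1)) * T σ =
      2 * x 0 * (dl 0 l * dl i 1 + dl 0 i * dl l 1) * T 1 -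
        2 * x 0 * ff x * (dl l 1 * dl i 1) * T 0 := by
    intro T i
    rw [sum_two]
    · simp only [dl00, dl01, dl11]
      ring
    · intro σ h0 h1
      simp only [dl_ne0 h0, dl_ne1 h1]
      ring
  have s1 : ∀ (T : Fin (m + 2) → ℝ) (i : Fin (m + 2)),
      ∑ σ, (2 * x 0 * (dl i 1 * (dl 0 l * dl σ 1 + dl 0 σ * dl l 1)) -
        2 * x 0 * ff x * (dl 0 i * dl l 1 * dl σ 1)) * T σ =
      2 * x 0 * (dl i 1 * (dl 0 l * T 1 + dl l 1 * T 0)) -
        2 * x 0 * ff x * (dl 0 i * dl l 1) * T 1 := by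
    intro T i
    rw [sum_two]
    · simp only [dl00, dl01, dl11]
      ring
    · intro σ h0 h1
      simp only [dl_ne0 h0, dl_ne1 h1]
      ring
  rw [s1]
  simp only [s0, if_true]
  simp only [show (0 : Fin 3) ≠ 1 by decide, show (0 : Fin 3) ≠ 2 by decide,
    show (1 : Fin 3) ≠ 0 by decide, show (1 : Fin 3) ≠ 2 by decide,
    show (2 : Fin 3) ≠ 0 by decide, show (2 : Fin 3) ≠ 1 by decide, if_false]
  unfold GG
  simp only [dl00, dl01, dl11]
  have dl10 : dl (0 : Fin (m + 2)) 1 = 0 := dl01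
  rcases tri α with ⟨h1, h2⟩ | ⟨h1, h2⟩ | ⟨h1, h2⟩ <;>
  rcases tri β with ⟨h3, h4⟩ | ⟨h3, h4⟩ | ⟨h3, h4⟩ <;>
  rcases tri μ with ⟨h5, h6⟩ | ⟨h5, h6⟩ | ⟨h5, h6⟩ <;>
  rcases tri ν with ⟨h7, h8⟩ | ⟨h7, h8⟩ | ⟨h7, h8⟩ <;>
  simp only [h1, h2, h3, h4, h5, h6, h7, h8] <;> field_simp <;> ring

lemma contDiff_pd {F : E (m + 2) → ℝ} (h : ContDiff ℝ ∞ F) (i : Fin (m + 2)) :
    ContDiff ℝ ∞ (fun x => pd i F x) := by
  unfold pd
  exact (h.fderiv_right (m := ∞) (by simp)).clm_apply contDiff_const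

lemma contDiff_chr (k i j : Fin (m + 2)) : ContDiff ℝ ∞ (fun x : E (m + 2) => chr met x k i j) := by
  simp only [chr_met]
  exact ((contDiff_const.mul (contDiff_coord 0)).mul contDiff_const).sub
    (((contDiff_const.mul (contDiff_coord 0)).mul contDiff_ff).mul contDiff_const)

lemma contDiff_KK : ContDiff ℝ ∞ (fun x : E (m + 2) => KK (x 0)) := by
  unfold KK
  exact (contDiff_const.add (contDiff_const.mul ((contDiff_coord 0).pow 2))).neg

lemma KK_ne (u : ℝ) : KK u ≠ 0 := by
  unfold KK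
  nlinarith [sq_nonneg u]

lemma contDiff_curv (α : Fin (m + 2)) (b : Fin 3 → Fin (m + 2)) :
    ContDiff ℝ ∞ (fun x : E (m + 2) => curv met x α b) := by
  simp only [curv_met]
  refine contDiff_KK.mul ?_
  unfold GG
  exact contDiff_const.mul ((contDiff_const.mul contDiff_ff).sub contDiff_const)

/-- `dK / K` -/
noncomputable def theta (l : Fin (m + 2)) (x : E (m + 2)) : ℝ :=
  dl 0 l * (-(8 * x 0) / KK (x 0))

lemma contDiff_theta (l : Fin (m + 2)) : ContDiff ℝ ∞ (fun x : E (m + 2) => theta l x) := by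
  unfold theta
  exact contDiff_const.mul (((contDiff_const.mul (contDiff_coord 0)).neg).div contDiff_KK
    fun x => KK_ne _)

/-- `∇^k R = rho k ⊗ R` -/
noncomputable def rho : (k : ℕ) → (Fin k → Fin (m + 2)) → E (m + 2) → ℝ
  | 0 => fun _ _ => 1
  | k + 1 => fun b x => pd (b 0) (rho k (Fin.tail b)) x -
      ∑ j : Fin k, ∑ σ, chr met x σ (b 0) (Fin.tail b j) *
        rho k (Function.update (Fin.tail b) j σ) x + theta (b 0) x * rho k (Fin.tail b) x

lemma contDiff_rho (k : ℕ) (b : Fin k → Fin (m + 2)) : ContDiff ℝ ∞ (rho k b) := by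
  induction k with
  | zero => exact contDiff_const
  | succ k ih =>
    exact ((contDiff_pd (ih _) _).sub (ContDiff.sum fun j _ => ContDiff.sum fun σ _ =>
      (contDiff_chr _ _ _).mul (ih _))).add ((contDiff_theta _).mul (ih _))

lemma pd_mul {F G : E (m + 2) → ℝ} (hF : ContDiff ℝ ∞ F) (hG : ContDiff ℝ ∞ G)
    (i : Fin (m + 2)) (x : E (m + 2)) :
    pd i (fun y => F y * G y) x = pd i F x * G x + F x * pd i G x := by
  unfold pd
  rw [fderiv_fun_mul (hF.differentiable (by simp)).differentiableAt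
    (hG.differentiable (by simp)).differentiableAt]
  simp
  ring

lemma nablaR_met (k : ℕ) (x : E (m + 2)) (α : Fin (m + 2)) (b : Fin (k + 3) → Fin (m + 2)) :
    nablaR met k x α b = rho k (fun i => b (Fin.castAdd 3 i)) x *
      curv met x α (fun i => b (Fin.natAdd k i)) := by
  induction k generalizing x α with
  | zero =>
    simp only [nablaR, rho, one_mul]
    congr 1
    funext i
    congr 1
    ext
    simp
  | succ k ih =>
    have h0 : nablaR met (k + 1) x α b = covD met (nablaR met k) x α b := rfl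
    rw [h0]
    unfold covD
    set c : Fin (k + 3) → Fin (m + 2) := Fin.tail b with hc
    set c1 : Fin k → Fin (m + 2) := fun i => c (Fin.castAdd 3 i) with hc1
    set c2 : Fin 3 → Fin (m + 2) := fun i => c (Fin.natAdd k i) with hc2
    have e1 : (fun i => b (Fin.natAdd (k + 1) i)) = c2 := by
      funext i
      simp only [hc2, hc, Fin.tail]
      congr 1
      ext
      simp
      omega
    have e2 : Fin.tail (fun i : Fin (k + 1) => b (Fin.castAdd 3 i)) = c1 := by
      funext i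
      simp only [hc1, hc, Fin.tail]
      rfl
    have e3 : (fun i : Fin (k + 1) => b (Fin.castAdd 3 i)) 0 = b 0 := rfl
    simp only [ih]
    rw [pd_mul (contDiff_rho _ _) (contDiff_curv _ _), Fin.sum_univ_add (a := k) (b := 3)]
    simp only [rho]
    have u1 : ∀ (j : Fin k) (σ : Fin (m + 2)),
        (fun i => Function.update c (Fin.castAdd 3 j) σ (Fin.castAdd 3 i)) =
          Function.update c1 j σ := by
      intro j σ
      funext i
      by_cases h : i = j
      · subst h; simp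
      · rw [Function.update_of_ne h, Function.update_of_ne]
        intro h'
        exact h (Fin.castAdd_injective _ _ h')
    have u2 : ∀ (j : Fin k) (σ : Fin (m + 2)),
        (fun i => Function.update c (Fin.castAdd 3 j) σ (Fin.natAdd k i)) = c2 := by
      intro j σ
      funext i
      rw [Function.update_of_ne]
      intro h'
      have := congrArg Fin.val h'
      simp at this
      omega
    have u3 : ∀ (j : Fin 3) (σ : Fin (m + 2)),
        (fun i => Function.update c (Fin.natAdd k j) σ (Fin.castAdd 3 i)) = c1 := by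
      intro j σ
      funext i
      rw [Function.update_of_ne]
      intro h'
      have := congrArg Fin.val h'
      simp at this
      omega
    have u4 : ∀ (j : Fin 3) (σ : Fin (m + 2)),
        (fun i => Function.update c (Fin.natAdd k j) σ (Fin.natAdd k i)) =
          Function.update c2 j σ := by
      intro j σ
      funext i
      by_cases h : i = j
      · subst h; simp
      · rw [Function.update_of_ne h, Function.update_of_ne]
        intro h'
        exact h (Fin.natAdd_injective _ _ h')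
    simp only [u1, u2, u3, u4, e1, e2]
    have hn := nabla_curv x α (Fin.cons (b 0) c2)
    unfold covD at hn
    simp only [Fin.tail_cons, Fin.cons_zero] at hn
    have f1 : ∀ i : Fin 3, c (Fin.natAdd k i) = c2 i := fun _ => rfl
    have f2 : ∀ i : Fin k, c (Fin.castAdd 3 i) = c1 i := fun _ => rfl
    simp only [f1, f2]
    have hn' : pd (b 0) (fun y => curv met y α c2) x =
        dl 0 (b 0) * (-(8 * x 0) / KK (x 0)) * curv met x α c2 -
          ∑ σ, chr met x α (b 0) σ * curv met x σ c2 +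
          ∑ j : Fin 3, ∑ σ, chr met x σ (b 0) (c2 j) * curv met x α (Function.update c2 j σ) := by
      linarith [hn]
    have g1 : ∑ σ, chr met x α (b 0) σ * (rho k c1 x * curv met x σ c2) =
        rho k c1 x * ∑ σ, chr met x α (b 0) σ * curv met x σ c2 := by
      rw [Finset.mul_sum]
      exact Finset.sum_congr rfl fun _ _ => by ring
    have g2 : ∑ j : Fin 3, ∑ σ, chr met x σ (b 0) (c2 j) *
        (rho k c1 x * curv met x α (Function.update c2 j σ)) =
        rho k c1 x * ∑ j : Fin 3, ∑ σ, chr met x σ (b 0) (c2 j) *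
          curv met x α (Function.update c2 j σ) := by
      rw [Finset.mul_sum]
      refine Finset.sum_congr rfl fun _ _ => ?_
      rw [Finset.mul_sum]
      exact Finset.sum_congr rfl fun _ _ => by ring
    have g3 : ∑ j : Fin k, ∑ σ, chr met x σ (b 0) (c1 j) *
        (rho k (Function.update c1 j σ) x * curv met x α c2) =
        (∑ j : Fin k, ∑ σ, chr met x σ (b 0) (c1 j) * rho k (Function.update c1 j σ) x) *
          curv met x α c2 := by
      rw [Finset.sum_mul]
      refine Finset.sum_congr rfl fun _ _ => ?_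
      rw [Finset.sum_mul]
      exact Finset.sum_congr rfl fun _ _ => by ring
    rw [g1, g2, g3, hn']
    have hb0 : b (Fin.castAdd 3 (0 : Fin (k + 1))) = b 0 := rfl
    unfold theta
    rw [hb0]
    ring

lemma nablaR_zero {n : ℕ} (g : E n → Matrix (Fin n) (Fin n) ℝ) (x : E n) (α : Fin n) :
    ∀ (k : ℕ) (hk : k = 0) (c : Fin (k + 3) → Fin n),
      nablaR g k x α c = curv g x α (fun i : Fin 3 => c ⟨i, by omega⟩) := by
  rintro k rfl c
  rfl

lemma met_isKS (s : ℕ) : IsKS (met : E (m + 2) → _) (s + 1) := by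
  refine ⟨fun k lam x => if k = s + 1 then -rho k lam x else 0, fun k lam => ?_, fun x α b => ?_⟩
  · by_cases h : k = s + 1
    · simp only [if_pos h]
      exact (contDiff_rho k lam).neg
    · simp only [if_neg h]
      exact contDiff_const
  · rw [Finset.sum_eq_single (Fin.last s)]
    · beta_reduce
      rw [if_pos (show (Fin.last s : ℕ) + 1 = s + 1 from rfl)]
      have hz : s + 1 - ((Fin.last s : ℕ) + 1) = 0 := by
        rw [show (Fin.last s : ℕ) = s from rfl, Nat.sub_self]
      rw [nablaR_zero met x α _ hz, nablaR_met]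
      have e : (fun i : Fin 3 => b ⟨((⟨i, by omega⟩ : Fin (s + 1 - ((Fin.last s : ℕ) + 1) + 3)) : ℕ) +
          ((Fin.last s : ℕ) + 1), by simp; omega⟩) = fun i : Fin 3 => b (Fin.natAdd (s + 1) i) := by
        funext i
        congr 1
        ext
        simp
        omega
      have e2 : (fun i : Fin ((Fin.last s : ℕ) + 1) => b ⟨i, by have := i.2; simp at this; omega⟩) =
          fun i : Fin (s + 1) => b (Fin.castAdd 3 i) := rfl
      rw [e2]
      have e3 : curv met x α (fun i : Fin 3 => b ⟨((⟨i, by omega⟩ :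
          Fin (s + 1 - ((Fin.last s : ℕ) + 1) + 3)) : ℕ) + ((Fin.last s : ℕ) + 1), by simp; omega⟩) =
          curv met x α (fun i : Fin 3 => b (Fin.natAdd (s + 1) i)) := by rw [e]
      rw [e3]
      have e4 : rho ((Fin.last s : ℕ) + 1) (fun i : Fin (s + 1) => b (Fin.castAdd 3 i)) x =
          rho (s + 1) (fun i : Fin (s + 1) => b (Fin.castAdd 3 i)) x := rfl
      rw [e4]
      ring
    · intro j _ hj
      have : (j : ℕ) + 1 ≠ s + 1 := by
        intro h
        apply hj
        ext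
        simp
        omega
      beta_reduce
      rw [if_neg this, zero_mul]
    · intro h
      exact absurd (Finset.mem_univ _) h

end

/-- **There are Riemannian manifolds of every dimension `n ≥ 2` which are `KS_n` manifolds of every
order `r ≥ 1` and are not locally symmetric.** The metric `g` on `ℝⁿ` is complete (it is at least
the Euclidean metric); the same `g` serves for all `r`. -/
theorem result (n : ℕ) (hn : 2 ≤ n) : ∃ g : E n → Matrix (Fin n) (Fin n) ℝ,
    IsRiemannianMetric g ∧ (∀ (x : E n) (v : Fin n → ℝ), ∑ i, v i ^ 2 ≤ v ⬝ᵥ (g x).mulVec v) ∧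
    (∀ r : ℕ, 1 ≤ r → IsKS g r) ∧
    ¬ ∀ (x : E n) (α : Fin n) (b : Fin 4 → Fin n), nablaR g 1 x α b = 0 := by
  obtain ⟨m, rfl⟩ : ∃ m, n = m + 2 := ⟨n - 2, by omega⟩
  refine ⟨met, met_isRiem, fun x v => ?_, fun r hr => ?_, fun h => ?_⟩
  · unfold met
    simp only [Matrix.mulVec_diagonal, dotProduct]
    refine Finset.sum_le_sum fun i _ => ?_
    have h1 : 1 ≤ ff x := Real.one_le_exp (by positivity)
    split_ifs
    · nlinarith [sq_nonneg (v i)]
    · nlinarith [sq_nonneg (v i)]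
  · obtain ⟨s, rfl⟩ : ∃ s, r = s + 1 := ⟨r - 1, by omega⟩
    exact met_isKS s
  · have h1 := h (EuclideanSpace.single 0 1) 1 ![0, 0, 0, 1]
    have h2 : nablaR met 1 (EuclideanSpace.single 0 1 : E (m + 2)) 1 ![0, 0, 0, 1] =
        covD met (curv met) (EuclideanSpace.single 0 1 : E (m + 2)) 1 ![0, 0, 0, 1] := rfl
    rw [h2, nabla_curv, curv_met] at h1
    have t0 : Fin.tail ![(0 : Fin (m + 2)), 0, 0, 1] 0 = 0 := rfl
    have t1 : Fin.tail ![(0 : Fin (m + 2)), 0, 0, 1] 1 = 0 := rfl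
    have t2 : Fin.tail ![(0 : Fin (m + 2)), 0, 0, 1] 2 = 1 := rfl
    rw [t0, t1, t2] at h1
    simp [GG, KK, dl] at h1
    norm_num at h1

end Pool.Agent.Results.MP_9d59e9_gt.RecurrentMetrics
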